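import Pool.Agent.L7h55.GC.Eq6

/-!
# How many integers have the same growth constant

If the trajectory of `n` is divergent, then `2 ^ k T^k(n) / 3 ^ (number of odd terms before T^k n)` converges to a nonzero
number, the growth constant of `n`. Let `n₀` have a divergent trajectory and the growth constant `w₀`. The integers which merge
with `n₀` have growth constants `w₀ 2 ^ k / 3 ^ l`, and (`GrowthConstants`) those with a given growth constant have a local
limit law with a profile `U`. We deduce, with `S x = √(2 π σ2 log x)`: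

1. The number of the `r`-tuples of integers `|m_i| ≤ x` which merge with `n₀` and have the same growth constant is asymptotic to
   `C_r x ^ r / S(x) ^ (r - 1)`, `C_r = (√r log 3)⁻¹ ∫ (U(e^s) / e^s) ^ r ds`. So two random elements of the class, up to `x`,
   have the same growth constant with probability `~ C / √(log x)`.
2. The most frequent growth constants of the `|m| ≤ x` are those of `M (1 + o(1)) x / S(x)` of these integers, `M` the maximum
   of `U(t) / t`; and they are `w₀ 2 ^ k / 3 ^ l` with `k = μ log x + o(√(log x))`.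
3. For every `η > 0` all but `η x` of the `|m| ≤ x` of the class have growth constants in a set of `O(√(log x))` numbers; and
   every set of growth constants of at least `η x` of them has at least `c √(log x)` elements.

Proof. For fixed `k` the counts in the cells `(k, l)`, `l ∈ ℤ`, are approximated by the profile in the sum norm: the cells far
below `x` contain few elements by the local law for `k`, the others are finitely many. The sums of the `r`-th powers and the
maximum of the cells of a column are then `x g(x, k)` times continuous periodic functions of the position of the column. The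
uniform upper bound and the decay away from the mean are those of helper468.
-/

set_option autoImplicit false

namespace Pool.Agent.Results.MP_ff4775_nt.EqualGrowthConstants

open Filter Topology

/-- The 3x+1 map on the integers. -/
def T (x : ℤ) : ℤ := if x % 2 = 0 then x / 2 else (3 * x + 1) / 2

/-- number of odd terms among the first `k` terms of the trajectory of `n` -/
def odd (k : ℕ) (n : ℤ) : ℕ := ((Finset.range k).filter fun j => (T^[j] n) % 2 = 1).card

/-- the trajectory of `n` is divergent -/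
def Divergent (n : ℤ) : Prop := Tendsto (fun k : ℕ => |T^[k] n|) atTop atTop

/-- the trajectories of `m` and `n` merge -/
def Merge (m n : ℤ) : Prop := ∃ i j : ℕ, T^[i] m = T^[j] n

/-- the growth constant of `n` is `w` -/
def GrowthConstant (n : ℤ) (w : ℝ) : Prop :=
  Tendsto (fun k : ℕ => (2 : ℝ) ^ k * (T^[k] n : ℤ) / 3 ^ (odd k n)) atTop (𝓝 w)

/-- the number of the integers `m` of absolute value at most `y` which merge with `n₀` and have the growth constant `w` -/
noncomputable def N (n₀ : ℤ) (w y : ℝ) : ℕ := {m : ℤ | Merge m n₀ ∧ GrowthConstant m w ∧ |(m : ℝ)| ≤ y}.ncard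

/-- the number of the `r`-tuples of integers of absolute value at most `x` which merge with `n₀` and have a common growth
constant -/
noncomputable def Tuples (n₀ : ℤ) (r : ℕ) (x : ℝ) : ℕ :=
  {v : Fin r → ℤ | (∀ i, Merge (v i) n₀ ∧ |(v i : ℝ)| ≤ x) ∧ ∃ u : ℝ, ∀ i, GrowthConstant (v i) u}.ncard

/-- the constant of the mean value -/
noncomputable def μ : ℝ := 2 / Real.log (4 / 3)

/-- the constant of the variance -/
noncomputable def σ2 : ℝ := 2 * Real.log 3 ^ 2 / Real.log (4 / 3) ^ 3

/-- `√(2 π σ2 log x)` -/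
noncomputable def S (x : ℝ) : ℝ := Real.sqrt (2 * Real.pi * (σ2 * Real.log x))

/-- the value at `k` of the density of the normal distribution of mean `μ log x` and variance `σ2 log x` -/
noncomputable def g (x : ℝ) (k : ℤ) : ℝ :=
  Real.exp (-(((k : ℝ) - μ * Real.log x) ^ 2 / (2 * (σ2 * Real.log x)))) / S x

/-- **EQUAL GROWTH CONSTANTS.** There is `A` such that for every integer `n₀` with divergent trajectory, with the growth
constant `w₀`, and with the profile `U` of the local limit law of the integers with a given growth constant, the statements 1, 2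
and 3 of the introduction hold. -/
theorem result : ∃ A : ℝ, ∀ n₀ : ℤ, Divergent n₀ → ∃ w₀ : ℝ, w₀ ≠ 0 ∧ GrowthConstant n₀ w₀ ∧
    (∀ m : ℤ, Merge m n₀ → ∃ k l : ℤ, GrowthConstant m (w₀ * 2 ^ k / 3 ^ l)) ∧
    ∃ U : ℝ → ℝ, Continuous U ∧ Monotone U ∧ (∀ t : ℝ, t ≤ Real.exp (-A) → U t = 0) ∧
      (∀ t : ℝ, Real.exp A ≤ t → U t = U (Real.exp A)) ∧ 0 < U (Real.exp A) ∧
      (∀ K ε : ℝ, 0 < ε → ∃ X₀ : ℝ, ∀ (k l : ℤ) (W : ℝ), W = |w₀| * 2 ^ k / 3 ^ l → X₀ ≤ W →
        |(k : ℝ) - μ * Real.log W| ≤ K * Real.sqrt (Real.log W) → ∀ t : ℝ,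
        |(N n₀ (w₀ * 2 ^ k / 3 ^ l) (t * W) : ℝ) / (W * g W k) - U t| ≤ ε) ∧
      (∀ r : ℕ, 1 ≤ r → Tendsto (fun x : ℝ => S x ^ (r - 1) / x ^ r * (Tuples n₀ r x : ℝ)) atTop
        (𝓝 (1 / Real.sqrt r * (1 / Real.log 3 * ∫ s : ℝ, (U (Real.exp s) / Real.exp s) ^ r)))) ∧
      (∃ t₁ : ℝ, 0 < t₁ ∧ (∀ t : ℝ, 0 < t → U t / t ≤ U t₁ / t₁) ∧ 0 < U t₁ ∧ ∀ ε : ℝ, 0 < ε → ∃ X₀ : ℝ, 2 ≤ X₀ ∧
        ∀ x : ℝ, X₀ ≤ x →
        (∀ u : ℝ, (N n₀ u x : ℝ) ≤ (U t₁ / t₁ + ε) * x / S x) ∧
        (∃ u : ℝ, (U t₁ / t₁ - ε) * x / S x ≤ (N n₀ u x : ℝ)) ∧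
        ∀ k l : ℤ, (∀ u : ℝ, (N n₀ u x : ℝ) ≤ (N n₀ (w₀ * 2 ^ k / 3 ^ l) x : ℝ)) →
          |(k : ℝ) - μ * Real.log x| ≤ ε * Real.sqrt (Real.log x)) ∧
      (∀ η : ℝ, 0 < η → ∃ C X₀ : ℝ, ∀ x : ℝ, X₀ ≤ x → ∃ F : Finset ℝ, (F.card : ℝ) ≤ C * Real.sqrt (Real.log x) ∧
        ({m : ℤ | Merge m n₀ ∧ |(m : ℝ)| ≤ x ∧ ¬ ∃ u ∈ F, GrowthConstant m u}.ncard : ℝ) ≤ η * x) ∧
      ∀ η : ℝ, 0 < η → ∃ c X₀ : ℝ, 0 < c ∧ ∀ x : ℝ, X₀ ≤ x → ∀ F : Finset ℝ,
        η * x ≤ ({m : ℤ | Merge m n₀ ∧ |(m : ℝ)| ≤ x ∧ ∃ u ∈ F, GrowthConstant m u}.ncard : ℝ) →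
        c * Real.sqrt (Real.log x) ≤ F.card :=
  Pool.Agent.L7h55.GC.main_eq

end Pool.Agent.Results.MP_ff4775_nt.EqualGrowthConstants
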