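import Pool.Agent.L7h55.GC.Main

/-!
# The number of integers with a given growth constant

If the trajectory of `n` is divergent, then `2 ^ k T^k(n) / 3 ^ (number of odd terms before T^k n)` converges to a nonzero
number, the growth constant `w` of `n`. The integers which merge with `n` have the growth constants `w 2 ^ k / 3 ^ l`, with
integers `k`, `l`, and each of these numbers is the growth constant of finitely many of them only, which are between
`exp (-A) |w| 2 ^ k / 3 ^ l` and `exp A |w| 2 ^ k / 3 ^ l` in absolute value. We show that, for large `W = |w| 2 ^ k / 3 ^ l` and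
`k = μ log W + O (√(log W))`, the number of these integers is `(c + o(1)) W g(W, k)`, `g` the density of the normal law of mean
`μ log W` and variance `σ2 log W`, with a constant `c > 0`; and that the quotients of these integers and of their
common growth constant have a limit distribution, which does not depend on `W` and has no atoms. So every such number `W` is
(up to the sign) the growth constant of many integers.

Proof. The local limit law of helper468 for the values of `α ω + β κ`, where `κ` is the time difference and `ω` the difference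
of the numbers of odd terms of the trajectories, holds for all coprime weights `α`, `β`; its periodic factor is a function
of `log x / (α log 2 + β log 3)`. On the lines `α ω + β κ = j` the growth constants form a geometric progression of ratio
`2 ^ α 3 ^ β`. When this ratio is larger than `exp (2 A)`, the sets of the integers with these growth constants do not
interlace, and the law for the line gives a law for each of its points. The local law for the line has a continuous periodic
factor, and so the limit distribution has no atoms.
-/

set_option autoImplicit false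

namespace Pool.Agent.Results.MP_ff4775_nt.GrowthConstants

open Filter Topology

/-- The 3x+1 map on the integers. -/
def T (x : ℤ) : ℤ := if x % 2 = 0 then x / 2 else (3 * x + 1) / 2

/-- number of odd terms among the first `k` terms of the trajectory of `n` -/
def odd (k : ℕ) (n : ℤ) : ℕ := ((Finset.range k).filter fun j => (T^[j] n) % 2 = 1).card

/-- the trajectory of `n` is divergent -/
def Divergent (n : ℤ) : Prop := Tendsto (fun k : ℕ => |T^[k] n|) atTop atTop

/-- the trajectories of `m` and `n` merge -/
def Merge (m n : ℤ) : Prop := ∃ i j : ℕ, T^[i] m = T^[j] n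

/-- the growth constant of `n` is `w` -/
def GrowthConstant (n : ℤ) (w : ℝ) : Prop :=
  Tendsto (fun k : ℕ => (2 : ℝ) ^ k * (T^[k] n : ℤ) / 3 ^ (odd k n)) atTop (𝓝 w)

/-- the number of the integers `m` of absolute value at most `y` which merge with `n₀` and have the growth constant `w` -/
noncomputable def N (n₀ : ℤ) (w y : ℝ) : ℕ := {m : ℤ | Merge m n₀ ∧ GrowthConstant m w ∧ |(m : ℝ)| ≤ y}.ncard

/-- the constant of the mean value -/
noncomputable def μ : ℝ := 2 / Real.log (4 / 3)

/-- the constant of the variance -/
noncomputable def σ2 : ℝ := 2 * Real.log 3 ^ 2 / Real.log (4 / 3) ^ 3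

/-- the value at `k` of the density of the normal distribution of mean `μ log x` and variance `σ2 log x` -/
noncomputable def g (x : ℝ) (k : ℤ) : ℝ :=
  Real.exp (-(((k : ℝ) - μ * Real.log x) ^ 2 / (2 * (σ2 * Real.log x)))) /
    Real.sqrt (2 * Real.pi * (σ2 * Real.log x))

/-- **THE NUMBER OF INTEGERS WITH A GIVEN GROWTH CONSTANT.** There is `A` such that for every integer `n₀` with divergent
trajectory, with the growth constant `w₀`: the growth constants of the integers `m` that merge with `n₀` are of the form
`w₀ 2 ^ k / 3 ^ l`, and there are a constant `c > 0` and a continuous nondecreasing function `U`, equal to `0` for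
`t ≤ exp (-A)` and to `c` for `t ≥ exp A` (for positive `n₀` even for `t ≥ 1`; for negative `n₀`, `U` is `0` for `t ≤ 1`), such
that the number of the integers `m` which merge with `n₀`, have the growth constant `w₀ 2 ^ k / 3 ^ l` and satisfy `|m| ≤ t W`,
where `W = |w₀| 2 ^ k / 3 ^ l`, is `W g(W, k) (U(t) + o(1))` for `W → ∞`, uniformly in `t` and for
`|k - μ log W| ≤ K √(log W)`. -/
theorem result : ∃ A : ℝ, ∀ n₀ : ℤ, Divergent n₀ → ∃ w₀ : ℝ, w₀ ≠ 0 ∧ GrowthConstant n₀ w₀ ∧
    (∀ m : ℤ, Merge m n₀ → ∃ k l : ℤ, GrowthConstant m (w₀ * 2 ^ k / 3 ^ l)) ∧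
    ∃ (c : ℝ) (U : ℝ → ℝ), 0 < c ∧ Continuous U ∧ Monotone U ∧
      (∀ t : ℝ, t ≤ Real.exp (-A) → U t = 0) ∧ (∀ t : ℝ, Real.exp A ≤ t → U t = c) ∧
      (0 < n₀ → ∀ t : ℝ, 1 ≤ t → U t = c) ∧ (n₀ < 0 → ∀ t : ℝ, t ≤ 1 → U t = 0) ∧
      ∀ K ε : ℝ, 0 < ε → ∃ X₀ : ℝ, ∀ (k l : ℤ) (W : ℝ), W = |w₀| * 2 ^ k / 3 ^ l → X₀ ≤ W →
        |(k : ℝ) - μ * Real.log W| ≤ K * Real.sqrt (Real.log W) → ∀ t : ℝ,
        |(N n₀ (w₀ * 2 ^ k / 3 ^ l) (t * W) : ℝ) / (W * g W k) - U t| ≤ ε :=
  Pool.Agent.L7h55.GC.main

end Pool.Agent.Results.MP_ff4775_nt.GrowthConstants
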