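import Pool.Agent.L7h55.GC.Nb3

/-!
# The growth constants of the divergent integers are locally constant almost everywhere

If the trajectory of `n` is divergent, then `2 ^ k T^k(n) / 3 ^ (number of odd terms before T^k n)` converges to a nonzero
number, the growth constant `w(n)` of `n`. We show that for almost all `n` (in the sense of natural density) the growth constants
of all the affine neighbours of `n` are given by the growth constant of `n`: if
`|2^a 3^b m - 2^a' 3^b' n| ≤ exp (κ n)` with `a, b, a', b' ≤ κ n`, `κ n = √ (log n) / (log log n) ^ 16`, then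
`w(m) = w(n) 2^(a'-a) 3^(b'-b)`; in particular all the integers of `[n - exp (κ n), n + exp (κ n)]` have the same growth constant.
It follows that the quotients `n / w(n)` are equidistributed in residue classes, and that the law is the one of the solid
neighbourhoods.

Proof. By `AffineNeighbours` (starting file) almost every `n` merges with all its affine neighbours after a time `t` with
`4 ^ t ≤ n`. The growth constants of integers which merge have a quotient `2^k / 3^l`, and as both trajectories are still large at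
the time of the merging, `l` is determined by the size of `m / n`. The rest follows since the law of the quotients is continuous.
-/

set_option autoImplicit false

namespace Pool.Agent.Results.MP_ff4775_nt.LocallyConstant

open Filter Topology

/-- The 3x+1 map on the integers. -/
def T (x : ℤ) : ℤ := if x % 2 = 0 then x / 2 else (3 * x + 1) / 2

/-- number of odd terms among the first `k` terms of the trajectory of `n` -/
def odd (k : ℕ) (n : ℤ) : ℕ := ((Finset.range k).filter fun j => (T^[j] n) % 2 = 1).card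

/-- the trajectory of `n` is divergent -/
def Divergent (n : ℤ) : Prop := Tendsto (fun k : ℕ => |T^[k] n|) atTop atTop

/-- the trajectories of `m` and `n` merge -/
def Merge (m n : ℤ) : Prop := ∃ i j : ℕ, T^[i] m = T^[j] n

/-- the growth constant of `n` is `w` -/
def GrowthConstant (n : ℤ) (w : ℝ) : Prop :=
  Tendsto (fun k : ℕ => (2 : ℝ) ^ k * (T^[k] n : ℤ) / 3 ^ (odd k n)) atTop (𝓝 w)

/-- the positive integers with the property `P` have natural density `l` -/
def HasDensity (P : ℕ → Prop) (l : ℝ) : Prop :=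
  Tendsto (fun N : ℕ => ({n : ℕ | 1 ≤ n ∧ n ≤ N ∧ P n}.ncard : ℝ) / N) atTop (𝓝 l)

/-- the scale `√ (log n) / (log log n) ^ 16` -/
noncomputable def κ (n : ℕ) : ℝ := √ (Real.log n) / (Real.log (Real.log n)) ^ 16

/-- the integers `x` and `m` are linked by the exponents `a, b, a', b'` at the scale of `n`: all the exponents are `≤ κ n` and
`|2^a 3^b m - 2^a' 3^b' x| ≤ exp (κ n)` -/
def Linked (n : ℕ) (x m : ℤ) (a b a' b' : ℕ) : Prop :=
  (a : ℝ) ≤ κ n ∧ (b : ℝ) ≤ κ n ∧ (a' : ℝ) ≤ κ n ∧ (b' : ℝ) ≤ κ n ∧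
    |((2 ^ a * 3 ^ b * m - 2 ^ a' * 3 ^ b' * x : ℤ) : ℝ)| ≤ Real.exp (κ n)

/-- `m` is an affine neighbour of `x` at the scale of `n` -/
def Neighbour (n : ℕ) (x m : ℤ) : Prop := ∃ a b a' b' : ℕ, Linked n x m a b a' b'

/-- the divergent integers `m` with `|m| ≤ t |w|`, where `w` is the growth constant of `m` -/
def Q (t : ℝ) : Set ℤ := {m : ℤ | Divergent m ∧ ∃ w : ℝ, GrowthConstant m w ∧ |(m : ℝ)| ≤ t * |w|}

/-- `V` is continuous and nondecreasing, `0` for `t ≤ exp (-A)` and constant for `t ≥ exp A`; for `s = 1` it is constant for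
`t ≥ 1`, for `s = -1` it is `0` for `t ≤ 1` -/
def LimitLaw (s : ℤ) (A : ℝ) (V : ℝ → ℝ) : Prop :=
  Continuous V ∧ Monotone V ∧ (∀ t : ℝ, t ≤ Real.exp (-A) → V t = 0) ∧ (∀ t : ℝ, Real.exp A ≤ t → V t = V (Real.exp A)) ∧
    (s = 1 → ∀ t : ℝ, 1 ≤ t → V t = V (Real.exp A)) ∧ (s = -1 → ∀ t : ℝ, t ≤ 1 → V t = 0)

theorem nb_iff (n : ℕ) (x m : ℤ) : Neighbour n x m ↔ Pool.Agent.W38.AF.NB n x m := by
  constructor
  · rintro ⟨a, b, a', b', h1, h2, h3, h4, h5⟩
    exact ⟨a, a', b, b', h1, h3, h2, h4, h5⟩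
  · rintro ⟨a, a', b, b', h1, h3, h2, h4, h5⟩
    exact ⟨a, b, a', b', h1, h2, h3, h4, h5⟩

/-- **THE GROWTH CONSTANTS OF THE DIVERGENT INTEGERS ARE LOCALLY CONSTANT ALMOST EVERYWHERE.** There is `A` such that for both
signs `s`: (1) almost all `n` have the following property: if `w` is the growth constant of `s n`, then every affine neighbour
`m` of `s n` at the scale of `n`, that is, every integer `m` with `|2^a 3^b m - 2^a' 3^b' s n| ≤ exp (κ n)` for some
`a, b, a', b' ≤ κ n = √ (log n) / (log log n) ^ 16`, has the growth constant `w 2^(a'-a) 3^(b'-b)`; in particular every `m` with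
`|m - s n| ≤ exp (κ n)` has the growth constant `w`. (2) There is a continuous nondecreasing `V` (`0` for `t ≤ exp (-A)`, constant
for `t ≥ exp A`) such that for all real `t` and all residue classes `c` modulo `q`: the `n` in the class for which every affine
neighbour `m` of `s n` is divergent with `|m| ≤ t |w(m)|` have the natural density `V(t) / q`, and the `n` in the class for which
no affine neighbour `m` of `s n` has this property have the natural density `(1 - V(t)) / q`. (3) For every divergent `n₀` of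
sign `s` the same holds, with a `V` depending on the merging class of `n₀` and with `V (exp A) > 0`, for the integers `m` which
merge with `n₀` and satisfy `|m| ≤ t |w(m)|`. -/
theorem result : ∃ A : ℝ, ∀ s : ℤ, s = 1 ∨ s = -1 →
    HasDensity (fun n => ∀ w : ℝ, GrowthConstant (s * n) w → ∀ (m : ℤ) (a b a' b' : ℕ), Linked n (s * n) m a b a' b' →
      GrowthConstant m (w * (2 ^ a' * 3 ^ b') / (2 ^ a * 3 ^ b))) 1 ∧
    (∃ V : ℝ → ℝ, LimitLaw s A V ∧ ∀ (t : ℝ) (q c : ℕ), 0 < q →
      HasDensity (fun n => n % q = c % q ∧ ∀ m : ℤ, Neighbour n (s * n) m → m ∈ Q t) (V t / q) ∧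
      HasDensity (fun n => n % q = c % q ∧ ∀ m : ℤ, Neighbour n (s * n) m → m ∉ Q t) ((1 - V t) / q)) ∧
    ∀ n₀ : ℤ, 0 < s * n₀ → Divergent n₀ → ∃ V : ℝ → ℝ, LimitLaw s A V ∧ 0 < V (Real.exp A) ∧
      ∀ (t : ℝ) (q c : ℕ), 0 < q →
      HasDensity (fun n => n % q = c % q ∧ ∀ m : ℤ, Neighbour n (s * n) m → m ∈ Q t ∧ Merge m n₀) (V t / q) ∧
      HasDensity (fun n => n % q = c % q ∧ ∀ m : ℤ, Neighbour n (s * n) m → ¬ (m ∈ Q t ∧ Merge m n₀))
        ((1 - V t) / q) := by
  obtain ⟨A, h⟩ := Pool.Agent.L7h55.GC.Nb.nb_main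
  have conv : ∀ {s : ℤ} {V : ℝ → ℝ}, Pool.Agent.L7h55.GC.LawP s A V → LimitLaw s A V :=
    fun h => ⟨h.cont, h.mono, h.low, h.high, h.one, h.neg⟩
  refine ⟨A, fun s hs => ?_⟩
  obtain ⟨h1, ⟨V, h2, h3⟩, h6⟩ := h s hs
  refine ⟨?_, ⟨V, conv h2, fun t q c hq => ?_⟩, fun n₀ h0 hd => ?_⟩
  · refine Pool.Agent.W38.AF.HD_congr' h1 (fun n _ => ?_)
    constructor
    · rintro h w hw m a b a' b' ⟨e1, e2, e3, e4, e5⟩
      exact h w hw m a b a' b' e1 e2 e3 e4 e5
    · rintro h w hw m a b a' b' e1 e2 e3 e4 e5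
      exact h w hw m a b a' b' ⟨e1, e2, e3, e4, e5⟩
  · obtain ⟨h4, h5⟩ := h3 t q c hq
    refine ⟨Pool.Agent.W38.AF.HD_congr' h4 (fun n _ => ?_), Pool.Agent.W38.AF.HD_congr' h5 (fun n _ => ?_)⟩
    · simp only [nb_iff]; rfl
    · simp only [nb_iff]; rfl
  · obtain ⟨V, h7, h8, h9⟩ := h6 n₀ h0 hd
    refine ⟨V, conv h7, h8, fun t q c hq => ?_⟩
    obtain ⟨h4, h5⟩ := h9 t q c hq
    refine ⟨Pool.Agent.W38.AF.HD_congr' h4 (fun n _ => ?_), Pool.Agent.W38.AF.HD_congr' h5 (fun n _ => ?_)⟩
    · simp only [nb_iff]; rfl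
    · simp only [nb_iff]; rfl

end Pool.Agent.Results.MP_ff4775_nt.LocallyConstant
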