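import Pool.Agent.L7h55.GC.Quo3

/-!
# The quotients of the divergent integers by their growth constants have a limit distribution without atoms

If the trajectory of `n` is divergent, then `2 ^ k T^k(n) / 3 ^ (number of odd terms before T^k n)` converges to a nonzero
number, the growth constant `w(n)` of `n`, and `exp (-A) |w(n)| ≤ |n| ≤ exp A |w(n)|`. We show that the quotients `n / w(n)`,
`n` divergent and of a given sign, have a limit distribution with respect to the natural density: for every `t` the set of the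
divergent `n` of the given sign with `|n| ≤ t |w(n)|` has a natural density `V(t)`, and `V` is continuous. The same holds for
the integers which merge with a given one; here `V(t) = (U(t) / t + ∫_0^t U(r) r^(-2) dr) / log 3`, that is
`dV = dU / (t log 3)`, where `U` is the profile of the numbers of the integers with one and the same growth constant.

Proof. The number of the `m` of the class in `(x / 3, x]` with `|m| ≤ t |w(m)|` and with the time difference `k` is a sum of a
bounded number of counts of integers with the same growth constant, which are known by the law for the cells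
(`GrowthConstants`), uniformly in the argument. So this number is asymptotic to `x g(x, k) H(fractional part of
(log |w₀| + k log 2 - log x) / log 3)` with a continuous `H`, `H(0) = H(1)`, and the sum over `k` is asymptotic to `x ∫ H` because
`log 2 / log 3` is irrational. The divergent integers whose classes contain no small integer have a small density
(`NaturalDensity`), so that the laws of the classes can be added.
-/

set_option autoImplicit false

namespace Pool.Agent.Results.MP_ff4775_nt.QuotientLaw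

open Filter Topology

/-- The 3x+1 map on the integers. -/
def T (x : ℤ) : ℤ := if x % 2 = 0 then x / 2 else (3 * x + 1) / 2

/-- number of odd terms among the first `k` terms of the trajectory of `n` -/
def odd (k : ℕ) (n : ℤ) : ℕ := ((Finset.range k).filter fun j => (T^[j] n) % 2 = 1).card

/-- the trajectory of `n` is divergent -/
def Divergent (n : ℤ) : Prop := Tendsto (fun k : ℕ => |T^[k] n|) atTop atTop

/-- the trajectories of `m` and `n` merge -/
def Merge (m n : ℤ) : Prop := ∃ i j : ℕ, T^[i] m = T^[j] n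

/-- the growth constant of `n` is `w` -/
def GrowthConstant (n : ℤ) (w : ℝ) : Prop :=
  Tendsto (fun k : ℕ => (2 : ℝ) ^ k * (T^[k] n : ℤ) / 3 ^ (odd k n)) atTop (𝓝 w)

/-- the divergent integers `m` with `|m| ≤ t |w|`, where `w` is the growth constant of `m` -/
def Q (t : ℝ) : Set ℤ := {m : ℤ | Divergent m ∧ ∃ w : ℝ, GrowthConstant m w ∧ |(m : ℝ)| ≤ t * |w|}

/-- natural density among the integers of sign `s` -/
def HasDensity (s : ℤ) (S : Set ℤ) (l : ℝ) : Prop :=
  Tendsto (fun N : ℕ => ({n : ℤ | 0 < s * n ∧ s * n ≤ N ∧ n ∈ S}.ncard : ℝ) / N) atTop (𝓝 l)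

/-- `V` is continuous and nondecreasing, `0` for `t ≤ exp (-A)` and constant for `t ≥ exp A`; for `s = 1` it is constant for
`t ≥ 1`, for `s = -1` it is `0` for `t ≤ 1` -/
def LimitLaw (s : ℤ) (A : ℝ) (V : ℝ → ℝ) : Prop :=
  Continuous V ∧ Monotone V ∧ (∀ t : ℝ, t ≤ Real.exp (-A) → V t = 0) ∧ (∀ t : ℝ, Real.exp A ≤ t → V t = V (Real.exp A)) ∧
    (s = 1 → ∀ t : ℝ, 1 ≤ t → V t = V (Real.exp A)) ∧ (s = -1 → ∀ t : ℝ, t ≤ 1 → V t = 0)

/-- the number of the integers `m` of absolute value at most `y` which merge with `n₀` and have the growth constant `w` -/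
noncomputable def N (n₀ : ℤ) (w y : ℝ) : ℕ := {m : ℤ | Merge m n₀ ∧ GrowthConstant m w ∧ |(m : ℝ)| ≤ y}.ncard

/-- the constant of the mean value -/
noncomputable def μ : ℝ := 2 / Real.log (4 / 3)

/-- the constant of the variance -/
noncomputable def σ2 : ℝ := 2 * Real.log 3 ^ 2 / Real.log (4 / 3) ^ 3

/-- the value at `k` of the density of the normal distribution of mean `μ log x` and variance `σ2 log x` -/
noncomputable def g (x : ℝ) (k : ℤ) : ℝ :=
  Real.exp (-(((k : ℝ) - μ * Real.log x) ^ 2 / (2 * (σ2 * Real.log x)))) /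
    Real.sqrt (2 * Real.pi * (σ2 * Real.log x))

/-- **THE QUOTIENTS OF THE DIVERGENT INTEGERS BY THEIR GROWTH CONSTANTS HAVE A LIMIT DISTRIBUTION WITHOUT ATOMS.** There is `A`
such that for both signs `s`: (1) for every real `t` the divergent integers `m` of sign `s` with `|m| ≤ t |w(m)|` have a
natural density `V(t)`, where `V` is continuous, nondecreasing, `0` for `t ≤ exp (-A)` and equal to the density of all divergent
integers of sign `s` for `t ≥ exp A` (and positive there if there is a divergent integer of sign `s`); for `s = 1` it is constant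
for `t ≥ 1`, for `s = -1` it is `0` for `t ≤ 1`. (2) For every divergent `n₀` of sign `s`, with the growth constant `w₀`: the
limits `U(t)` of `N(n₀, w₀ (4/3)^n, t W) / (W g(W, 2 n))`, `W = |w₀| (4/3)^n`, exist for `n → ∞` and form a continuous
nondecreasing function, and for every `t` the integers `m` which merge with `n₀` and satisfy `|m| ≤ t |w(m)|` have the natural
density `V(t) = (U(t) / t + ∫_0^t U(r) r^(-2) dr) / log 3` (`t > 0`); `V` has the properties stated in (1). -/
theorem result : ∃ A : ℝ, ∀ s : ℤ, s = 1 ∨ s = -1 →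
    (∃ V : ℝ → ℝ, LimitLaw s A V ∧ (∀ t : ℝ, HasDensity s (Q t) (V t)) ∧ HasDensity s {m | Divergent m} (V (Real.exp A)) ∧
      ((∃ m : ℤ, 0 < s * m ∧ Divergent m) → 0 < V (Real.exp A))) ∧
    ∀ n₀ : ℤ, 0 < s * n₀ → Divergent n₀ → ∃ (w₀ : ℝ) (U V : ℝ → ℝ), w₀ ≠ 0 ∧ GrowthConstant n₀ w₀ ∧
      Continuous U ∧ Monotone U ∧
      (∀ t : ℝ, Tendsto (fun n : ℕ => (N n₀ (w₀ * 4 ^ n / 3 ^ n) (t * (|w₀| * 4 ^ n / 3 ^ n)) : ℝ) /
        (|w₀| * 4 ^ n / 3 ^ n * g (|w₀| * 4 ^ n / 3 ^ n) (2 * n))) atTop (𝓝 (U t))) ∧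
      LimitLaw s A V ∧ 0 < V (Real.exp A) ∧ (∀ t : ℝ, HasDensity s {m | m ∈ Q t ∧ Merge m n₀} (V t)) ∧
      ∀ t : ℝ, 0 < t → V t = 1 / Real.log 3 * (U t / t + ∫ r in (0 : ℝ)..t, U r / r ^ 2) := by
  obtain ⟨A, h⟩ := Pool.Agent.L7h55.GC.quo_main
  have conv : ∀ {s : ℤ} {V : ℝ → ℝ}, Pool.Agent.L7h55.GC.LawP s A V → LimitLaw s A V :=
    fun h => ⟨h.cont, h.mono, h.low, h.high, h.one, h.neg⟩
  refine ⟨A, fun s hs => ?_⟩
  obtain ⟨⟨V, h1, h2, h3, h4⟩, h5⟩ := h s hs
  refine ⟨⟨V, conv h1, h2, h3, h4⟩, fun n₀ h0 hd => ?_⟩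
  obtain ⟨w, U, V, g1, g2, g3, g4, g5, g6, g7, g8, g9⟩ := h5 n₀ h0 hd
  exact ⟨w, U, V, g1, g2, g3, g4, g5, conv g6, g7, g8, g9⟩

end Pool.Agent.Results.MP_ff4775_nt.QuotientLaw
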